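import Mathlib
import Pool.Agent.V7H65.MP.Final

/-!
# Graph isomorphism and families of nondeterministic oblivious branching programs

`IsIso z` is the graph isomorphism function for graphs on `n` labelled vertices: the input
`z : Var n → Bool` consists of the `n(n-1)` adjacency bits of the two graphs.

`OBP V w` is the type of nondeterministic oblivious branching programs of width `w` over the
variables `V`: in each layer one variable is read, and the layer carries, for each value of this
variable, a relation on the `w` states.

The theorem: for programs of length `k n (n - 1)` (time `k` times the number of input bits) the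
trivial space bound is optimal up to a factor depending only on `k`, even for the disjunction of
`2 ^ (c n)` programs that read the bits in different orders. The disjunction of `n!` programs of
width two, each reading every bit exactly once, suffices.
-/

namespace Pool.Agent.Results.MP_128e7d_lc.ObliviousTradeoffH65

open Pool.Agent.H526R2.GI Pool.Agent.V7H65.MPC

/-- There is a constant `C ≥ 1` such that for every `k ≥ 1`: if the disjunction of at most
`2 ^ (n / C ^ k)` nondeterministic oblivious programs of length at most `k n (n - 1)` and width
`w`, each with its own reading order, is the graph isomorphism function for `n` vertices, then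
`w ≥ 2 ^ (n ^ 2 / C ^ k)` (quotients rounded down). On the other hand `n!` programs of width `2`,
each reading every bit exactly once, suffice. -/
theorem result :
    (∃ C : ℕ, 0 < C ∧ ∀ k n t w : ℕ, 1 ≤ k → t ≤ 2 ^ (n / C ^ k) → ∀ P : Fin t → OBP (Var n) w,
      (∀ i, (P i).layers.length ≤ k * (n * (n - 1))) →
      (∀ z, (∃ i, (P i).Accepts z) ↔ IsIso z) → 2 ^ (n ^ 2 / C ^ k) ≤ w) ∧
    (∀ n : ℕ, ∃ P : Equiv.Perm (Fin n) → OBP (Var n) 2,
      (∀ π, ((P π).layers.map Prod.fst).Nodup ∧ ∀ v, v ∈ (P π).layers.map Prod.fst) ∧
      ∀ z, (∃ π, (P π).Accepts z) ↔ IsIso z) := by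
  refine ⟨⟨CC, by unfold CC; positivity, fun k n t w hk ht P hlen hP => obp_lower k n t w hk ht P hlen hP⟩, fun n => ?_⟩
  refine ⟨tryPerm, tryPerm_once, fun z => ?_⟩
  rw [isIso_iff]
  constructor
  · rintro ⟨π, hπ⟩
    exact ⟨π, (tryPerm_accepts π z).1 hπ⟩
  · rintro ⟨π, hπ⟩
    exact ⟨π, (tryPerm_accepts π z).2 hπ⟩

end Pool.Agent.Results.MP_128e7d_lc.ObliviousTradeoffH65
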